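import Pool.Agent.H24.Susp1

namespace Pool.Agent.Results.MP_0d7d6c_co.Limit

open Finset MeasureTheory Filter Topology Pointwise Pool.Agent.H24

/-- The weighted Laplacian `D_w - W_w`. -/
def lap {n : ℕ} (w : Fin n → Fin n → ℝ) : Matrix (Fin n) (Fin n) ℝ :=
  Matrix.diagonal (fun i => ∑ j, w i j) - Matrix.of w

/-- The multiset `s` is realizable by `G`: for some nonnegative symmetric weighting vanishing off
the edges of `G`, the eigenvalues of the Laplacian (with multiplicity) are `0` and those in `s`. -/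
def Realizable {n : ℕ} (G : SimpleGraph (Fin n)) (s : Multiset ℝ) : Prop :=
  ∃ w : Fin n → Fin n → ℝ, (∀ i j, w i j = w j i) ∧ (∀ i j, 0 ≤ w i j) ∧
    (∀ i j, ¬ G.Adj i j → w i j = 0) ∧ (lap w).charpoly.roots = 0 ::ₘ s

/-- The simplex `R`, in the coordinates obtained by dropping one coordinate. -/
def simplex (d : ℕ) : Set (Fin d → ℝ) := {y | (∀ i, 0 ≤ y i) ∧ ∑ i, y i ≤ 1}

/-- The point `(1 - ∑ y, y₁, …, y_d)` of `R`. -/
def tup {d : ℕ} (y : Fin d → ℝ) : Fin (d + 1) → ℝ := Fin.cons (1 - ∑ i, y i) y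

/-- The proportion `P(G)` of `R` occupied by realizable tuples. -/
noncomputable def P {n : ℕ} (G : SimpleGraph (Fin n)) : ℝ :=
  volume.real {y ∈ simplex (n - 2) | Realizable G (univ.val.map (tup y))} /
    volume.real (simplex (n - 2))

/-- The suspension: a new vertex adjacent to all old ones. -/
def susp {n : ℕ} (G : SimpleGraph (Fin n)) : SimpleGraph (Fin (n + 1)) where
  Adj a b := a ≠ b ∧ (a = Fin.last n ∨ b = Fin.last n ∨
    ∃ i j, G.Adj i j ∧ a = i.castSucc ∧ b = j.castSucc)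
  symm := ⟨fun _ _ h => ⟨h.1.symm, by
    rcases h.2 with h | h | ⟨i, j, h1, h2, h3⟩
    · exact Or.inr (Or.inl h)
    · exact Or.inl h
    · exact Or.inr (Or.inr ⟨j, i, h1.symm, h3, h2⟩)⟩⟩
  loopless := ⟨fun _ h => h.1 rfl⟩

/-- Iterated suspension. -/
def iter {m : ℕ} (G : SimpleGraph (Fin m)) : (k : ℕ) → SimpleGraph (Fin (m + k))
  | 0 => G
  | k + 1 => susp (iter G k)

lemma iter_adj {m : ℕ} (G : SimpleGraph (Fin m)) (k : ℕ) :
    ∀ i j : Fin (m + k), i ≠ j → (m ≤ i.1 ∨ m ≤ j.1) → (iter G k).Adj i j := by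
  induction k with
  | zero => intro i j _ h; have := i.2; have := j.2; omega
  | succ k ih =>
    intro i j hij h
    refine ⟨hij, ?_⟩
    by_cases h1 : i = Fin.last (m + k)
    · exact Or.inl h1
    by_cases h2 : j = Fin.last (m + k)
    · exact Or.inr (Or.inl h2)
    obtain ⟨a, rfl⟩ := Fin.exists_castSucc_eq.2 h1
    obtain ⟨b, rfl⟩ := Fin.exists_castSucc_eq.2 h2
    exact Or.inr (Or.inr ⟨a, b, ih a b (fun e => hij (e ▸ rfl)) h, rfl, rfl⟩)

lemma sum_tup {d : ℕ} (y : Fin d → ℝ) : ∑ i, tup y i = 1 := by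
  simp [tup, Fin.sum_univ_succ]

lemma realize (m d : ℕ) (G : SimpleGraph (Fin (d + 2)))
    (hG : ∀ i j : Fin (d + 2), i ≠ j → (m ≤ i.1 ∨ m ≤ j.1) → G.Adj i j) (hm : 1 ≤ m)
    (hd : 2 * m + 1 ≤ d) (l : Fin (d + 1) → ℝ) (h1 : ∑ i, l i = 1) (hp : ∀ i, 0 < l i)
    (hi : Function.Injective l) (hu : ∀ i, l i ≤ 1 / (2 * m))
    (hs : m ≤ (univ.filter (fun i => l i ≤ 1 / (12 * (d + 1)))).card) :
    Realizable G (univ.val.map l) := by
  have hd0 : (0 : ℝ) < d + 1 := by positivity
  have hm0 : (0 : ℝ) < m := by exact_mod_cast hm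
  have hL : m ≤ (univ.filter (fun i => 1 / (2 * (d + 1) : ℝ) ≤ l i)).card := by
    have e := sum_filter_add_sum_filter_not univ (fun i => 1 / (2 * (d + 1) : ℝ) ≤ l i) l
    have e1 := sum_le_card_nsmul (univ.filter (fun i => 1 / (2 * (d + 1) : ℝ) ≤ l i)) l _
      (fun i _ => hu i)
    have e2 := sum_le_card_nsmul (univ.filter (fun i => ¬ 1 / (2 * (d + 1) : ℝ) ≤ l i)) l
      (1 / (2 * (d + 1) : ℝ)) (fun i hi => (not_le.1 (mem_filter.1 hi).2).le)
    have e3 : ((univ.filter (fun i => ¬ 1 / (2 * (d + 1) : ℝ) ≤ l i)).card : ℝ) ≤ d + 1 := by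
      exact_mod_cast (card_le_univ _).trans (by simp)
    have e4 := mul_le_mul_of_nonneg_right e3 (show 0 ≤ 1 / (2 * (d + 1) : ℝ) by positivity)
    have e5 : (d + 1 : ℝ) * (1 / (2 * (d + 1))) = 1 / 2 := by field_simp
    rw [nsmul_eq_mul] at e1 e2
    have e6 : 1 / 2 ≤ ((univ.filter (fun i => 1 / (2 * (d + 1) : ℝ) ≤ l i)).card : ℝ) *
      (1 / (2 * m)) := by linarith
    rw [mul_one_div, le_div_iff₀ (by positivity)] at e6
    exact Nat.cast_le.1 (le_trans (show (m : ℝ) ≤ 1 / 2 * (2 * m) by linarith) e6)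
  obtain ⟨T, hT, hTc⟩ := exists_subset_card_eq hL
  have e6 : 6 * (1 / (12 * (d + 1) : ℝ)) = 1 / (2 * (d + 1)) := by field_simp; norm_num
  have e7 : 0 < 1 / (12 * (d + 1) : ℝ) := by positivity
  obtain ⟨w, k1, k2, k3, k4⟩ := Susp.main (univ.filter (fun i : Fin (d + 2) => i.1 < m)) m univ T
    univ l (1 / (12 * (d + 1))) (subset_univ _) hTc
    (fun t ht => e6 ▸ (mem_filter.1 (hT ht)).2)
    (hs.trans (card_le_card fun i hi => by
      have h2 := (mem_filter.1 hi).2
      refine mem_filter.2 ⟨mem_sdiff.2 ⟨mem_univ _, fun h => ?_⟩, h2⟩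
      have := (mem_filter.1 (hT h)).2
      linarith))
    (fun t _ => hp t) (by simp; omega) (by simp)
    (by rw [univ_inter, Fin.card_filter_val_lt]; omega)
  refine ⟨w, k1, k2, fun i j h => ?_, Susp.roots_eq _ _ ?_ (by simp) fun μ hμ => ?_⟩
  · by_contra hc
    obtain ⟨a1, -, -, a2⟩ := k3 i j hc
    simp only [mem_filter, mem_univ, true_and] at a2
    exact h (hG i j a1 (by omega))
  · refine Multiset.nodup_cons.2 ⟨fun h => ?_, univ.nodup.map hi⟩
    obtain ⟨i, -, h⟩ := Multiset.mem_map.1 h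
    exact (hp i).ne' h
  · have key : ∀ u : Fin (d + 2) → ℝ, ∀ i, (lap w).mulVec u i = ∑ j, w i j * (u i - u j) := by
      intro u i
      simp only [lap, Matrix.sub_mulVec, Pi.sub_apply, Matrix.mulVec_diagonal, mul_sub,
        sum_sub_distrib, sum_mul]
      rfl
    rcases Multiset.mem_cons.1 hμ with rfl | h
    · refine ⟨fun _ => 1, fun e => one_ne_zero (congrFun e 0), ?_⟩
      ext i
      simp [key]
    · obtain ⟨t, -, rfl⟩ := Multiset.mem_map.1 h
      obtain ⟨u, a1, -, -, a2⟩ := k4 t (mem_univ _)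
      exact ⟨u, a1, funext fun i => by rw [key, a2]; rfl⟩

lemma shrink {d : ℕ} (c : Fin (d + 1) → ℝ) (ε : ℝ) (h1 : ε < 1) (h2 : ε ≤ ∑ i, c i) :
    volume {y : Fin d → ℝ | ∀ i, c i ≤ tup y i} ≤
      ENNReal.ofReal ((1 - ε) ^ d) * volume (simplex d) := by
  have h0 : 0 < 1 - ε := by linarith
  have : {y : Fin d → ℝ | ∀ i, c i ≤ tup y i} ⊆
      (fun i => c i.succ : Fin d → ℝ) +ᵥ ((1 - ε) • simplex d) := by
    intro y hy
    refine ⟨y - fun i => c i.succ, ⟨(1 - ε)⁻¹ • (y - fun i => c i.succ), ⟨fun i => ?_, ?_⟩, ?_⟩, ?_⟩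
    · have := hy i.succ
      simp only [tup, Fin.cons_succ] at this
      simp only [Pi.smul_apply, Pi.sub_apply, smul_eq_mul]
      exact mul_nonneg (by positivity) (by linarith)
    · have := hy 0
      simp only [tup, Fin.cons_zero] at this
      rw [Fin.sum_univ_succ] at h2
      simp only [Pi.smul_apply, Pi.sub_apply, smul_eq_mul, ← mul_sum, sum_sub_distrib]
      rw [inv_mul_le_iff₀ h0]
      linarith
    · simp only
      rw [smul_inv_smul₀ h0.ne']
    · simp
  refine (measure_mono this).trans ?_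
  rw [measure_vadd, Measure.addHaar_smul_of_nonneg _ h0.le]
  simp

lemma null {d : ℕ} (f : (Fin d → ℝ) →ₗ[ℝ] ℝ) (c : ℝ) (y0 : Fin d → ℝ) (h : f y0 ≠ 0) :
    volume {y | f y = c} = 0 := by
  have : {y | f y = c} ⊆ ((c / f y0) • y0) +ᵥ (LinearMap.ker f : Set (Fin d → ℝ)) := by
    intro y hy
    refine ⟨y - (c / f y0) • y0, ?_, by simp⟩
    simp only [Set.mem_ofPred_eq] at hy
    simp [hy, h]
  refine measure_mono_null this ?_
  rw [measure_vadd]
  refine Measure.addHaar_submodule _ _ fun e => h ?_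
  exact LinearMap.mem_ker.1 (e ▸ Submodule.mem_top)

noncomputable def lin (d : ℕ) : Fin (d + 1) → ((Fin d → ℝ) →ₗ[ℝ] ℝ) :=
  Fin.cons (-∑ i, LinearMap.proj i) (fun i => LinearMap.proj i)

lemma tup_lin {d : ℕ} (y : Fin d → ℝ) (i) : tup y i = lin d i y + tup 0 i := by
  induction i using Fin.cases <;> simp [tup, lin]
  ring

lemma null1 {d : ℕ} (hd : 1 ≤ d) (i : Fin (d + 1)) : volume {y : Fin d → ℝ | tup y i = 0} = 0 := by
  have := null (lin d i) (-tup (0 : Fin d → ℝ) i) (fun _ => 1) (by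
    induction i using Fin.cases <;> simp [lin]
    omega)
  refine measure_mono_null (fun y hy => ?_) this
  simp only [Set.mem_ofPred_eq] at hy ⊢
  rw [tup_lin] at hy
  linarith

lemma null2 {d : ℕ} (i j : Fin (d + 1)) (h : i < j) :
    volume {y : Fin d → ℝ | tup y i = tup y j} = 0 := by
  obtain ⟨j, rfl⟩ := Fin.eq_succ_of_ne_zero (i := j) (by rintro rfl; exact Fin.not_lt_zero _ h)
  have := null (lin d i - lin d j.succ) (tup (0 : Fin d → ℝ) j.succ - tup (0 : Fin d → ℝ) i)
    (Pi.single j 1) (by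
      induction i using Fin.cases with
      | zero => simp [lin, Finset.sum_pi_single']; norm_num
      | succ i =>
        have : i ≠ j := fun e => h.ne (e ▸ rfl)
        simp [lin, this])
  refine measure_mono_null (fun y hy => ?_) this
  simp only [Set.mem_ofPred_eq, LinearMap.sub_apply] at hy ⊢
  rw [tup_lin y i, tup_lin y j.succ] at hy
  linarith

lemma simplex_fin (d : ℕ) : volume (simplex d) ≠ ⊤ := by
  refine ((measure_mono (show simplex d ⊆ Set.Icc 0 1 from fun y hy => ⟨hy.1, fun i => ?_⟩)).trans_lt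
    isCompact_Icc.measure_lt_top).ne
  exact (single_le_sum (fun j _ => hy.1 j) (mem_univ i)).trans hy.2

lemma simplex_pos (d : ℕ) : volume (simplex d) ≠ 0 := by
  have h : (0 : ℝ) < d + 1 := by positivity
  have : Set.Icc (0 : Fin d → ℝ) (fun _ => 1 / (d + 1)) ⊆ simplex d := by
    refine fun y hy => ⟨hy.1, (sum_le_card_nsmul _ _ _ fun i _ => hy.2 i).trans ?_⟩
    simp only [card_univ, Fintype.card_fin, nsmul_eq_mul]
    rw [mul_one_div, div_le_one h]
    linarith
  refine fun e => ?_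
  have := measure_mono_null this e
  rw [Real.volume_Icc_pi, prod_eq_zero_iff] at this
  obtain ⟨i, -, hi⟩ := this
  simp at hi
  linarith

lemma bound (m N : ℕ) (G : SimpleGraph (Fin N))
    (hG : ∀ i j : Fin N, i ≠ j → (m ≤ i.1 ∨ m ≤ j.1) → G.Adj i j) (hm : 1 ≤ m)
    (hN : 2 * m + 3 ≤ N) :
    1 - (m + N) * (1 - 1 / (24 * m) : ℝ) ^ (N - 2) ≤ P G ∧ P G ≤ 1 := by
  obtain ⟨d, rfl⟩ : ∃ d, N = d + 2 := ⟨N - 2, by omega⟩
  have hm0 : (1 : ℝ) ≤ m := by exact_mod_cast hm
  have hpos : 0 < volume.real (simplex d) := ENNReal.toReal_pos (simplex_pos d) (simplex_fin d)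
  set ε : ℝ := 1 / (24 * m) with hε
  have hε1 : ε < 1 := by rw [hε, div_lt_one (by positivity)]; linarith
  set A := {y ∈ simplex d | Realizable G (univ.val.map (tup y))} with hA
  have hAs : A ⊆ simplex d := fun y hy => hy.1
  change 1 - (m + (d + 2 : ℕ)) * (1 - ε) ^ d ≤ volume.real A / volume.real (simplex d) ∧
    volume.real A / volume.real (simplex d) ≤ 1
  refine ⟨?_, (div_le_one hpos).2 (measureReal_mono hAs (simplex_fin d))⟩
  let k := (d + 1) / m
  have hk : k * m ≤ d + 1 := Nat.div_mul_le_self _ _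
  have hk2 : d + 1 < m * (k + 1) := Nat.lt_mul_div_succ _ hm
  have hk1 : 1 ≤ k := (Nat.le_div_iff_mul_le hm).2 (by omega)
  let τ : ℝ := 1 / (12 * (d + 1))
  let c1 : Fin m → Fin (d + 1) → ℝ := fun g i => if g.1 * k ≤ i.1 ∧ i.1 < g.1 * k + k then τ else 0
  let c2 : Fin (d + 1) → Fin (d + 1) → ℝ := fun i => Pi.single i (1 / (2 * m))
  have hb : ∀ g : Fin m, g.1 * k + k ≤ d + 1 := fun g => by
    have := Nat.mul_le_mul_right k (Nat.succ_le_of_lt g.2)
    nlinarith
  have cov : simplex d ⊆ A ∪ (((⋃ g, {y | ∀ i, c1 g i ≤ tup y i}) ∪ ⋃ j, {y | ∀ i, c2 j i ≤ tup y i}) ∪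
      ((⋃ i, {y | tup y i = 0}) ∪ ⋃ i, ⋃ j, ⋃ (_ : i < j), {y | tup y i = tup y j})) := by
    intro y hy
    by_contra hc
    simp only [Set.mem_union, Set.mem_iUnion, Set.mem_ofPred_eq, not_or, not_exists, not_forall,
      not_le] at hc
    obtain ⟨a1, ⟨a2, a3⟩, a4, a5⟩ := hc
    have h0 : ∀ i, 0 ≤ tup y i := by
      intro i
      induction i using Fin.cases with
      | zero => simpa [tup] using hy.2
      | succ i => simpa [tup] using hy.1 i
    refine a1 ⟨hy, realize m d G hG hm (by omega) _ (sum_tup y)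
      (fun i => lt_of_le_of_ne (h0 i) (Ne.symm (a4 i))) (fun i j e => ?_) (fun j => ?_) ?_⟩
    · rcases lt_trichotomy i j with h | h | h
      · exact absurd e (a5 i j h)
      · exact h
      · exact absurd e.symm (a5 j i h)
    · obtain ⟨i, hi⟩ := a3 j
      by_cases e : i = j
      · subst e
        simpa [c2] using hi.le
      · simp [c2, e] at hi
        linarith [h0 i]
    · choose f hf using a2
      have hf' : ∀ g, (g.1 * k ≤ (f g).1 ∧ (f g).1 < g.1 * k + k) ∧ tup y (f g) ≤ τ := by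
        intro g
        have := hf g
        simp only [c1] at this
        split_ifs at this with h
        · exact ⟨h, this.le⟩
        · linarith [h0 (f g)]
      have := card_le_card_of_injOn (s := univ) (t := univ.filter (fun i => tup y i ≤ τ)) f
        (fun g _ => by simpa using (hf' g).2) (fun g _ g' _ e => ?_)
      · rwa [card_univ, Fintype.card_fin] at this
      · have b1 := (hf' g).1
        have b2 := (hf' g').1
        rw [e] at b1
        apply Fin.ext
        rcases lt_trichotomy g.1 g'.1 with h | h | h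
        · have := Nat.mul_le_mul_right k (Nat.succ_le_of_lt h)
          nlinarith
        · exact h
        · have := Nat.mul_le_mul_right k (Nat.succ_le_of_lt h)
          nlinarith
  have s1 : ∀ g, ε ≤ ∑ i, c1 g i := by
    intro g
    have h1 : k ≤ (univ.filter (fun i : Fin (d + 1) => g.1 * k ≤ i.1 ∧ i.1 < g.1 * k + k)).card := by
      have := card_le_card_of_injOn (s := univ)
        (t := univ.filter (fun i : Fin (d + 1) => g.1 * k ≤ i.1 ∧ i.1 < g.1 * k + k))
        (fun j : Fin k => ⟨g.1 * k + j.1, by have := hb g; omega⟩)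
        (fun j _ => by simp) (fun j _ j' _ e => by simpa [Fin.ext_iff] using e)
      simpa using this
    simp only [c1]
    rw [← sum_filter, sum_const, nsmul_eq_mul]
    have h2 : (k : ℝ) ≤ _ := Nat.cast_le.2 h1
    have h3 : (d + 1 : ℝ) ≤ m * (k + 1) := by exact_mod_cast hk2.le
    have h4 : (1 : ℝ) ≤ k := by exact_mod_cast hk1
    refine le_trans ?_ (mul_le_mul_of_nonneg_right h2 (by positivity))
    simp only [τ, hε]
    rw [mul_one_div, div_le_div_iff₀ (by positivity) (by positivity)]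
    nlinarith
  have s2 : ∀ j, ε ≤ ∑ i, c2 j i := by
    intro j
    simp only [c2, Finset.sum_pi_single', mem_univ, if_true, hε]
    exact one_div_le_one_div_of_le (by positivity) (by linarith)
  set K := ENNReal.ofReal ((1 - ε) ^ d) * volume (simplex d) with hK
  have hvol : volume (simplex d) ≤ volume A + (m * K + (d + 1 : ℕ) * K) := by
    refine (measure_mono cov).trans ((measure_union_le _ _).trans (add_le_add le_rfl ?_))
    refine (measure_union_le _ _).trans ?_
    rw [measure_union_null (measure_iUnion_null (null1 (by omega)))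
      (measure_iUnion_null fun i => measure_iUnion_null fun j => measure_iUnion_null fun h =>
        null2 i j h), add_zero]
    refine (measure_union_le _ _).trans (add_le_add ?_ ?_)
    · refine (measure_iUnion_fintype_le _ _).trans ?_
      simpa using sum_le_card_nsmul univ _ K fun g _ => shrink (c1 g) ε hε1 (s1 g)
    · refine (measure_iUnion_fintype_le _ _).trans ?_
      simpa using sum_le_card_nsmul univ _ K fun g _ => shrink (c2 g) ε hε1 (s2 g)
  have hKf : K ≠ ⊤ := ENNReal.mul_ne_top ENNReal.ofReal_ne_top (simplex_fin d)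
  have hAf : volume A ≠ ⊤ := ((measure_mono hAs).trans_lt (simplex_fin d).lt_top).ne
  have hp : 0 ≤ (1 - ε) ^ d := pow_nonneg (by linarith) _
  have := ENNReal.toReal_mono (by finiteness) hvol
  rw [ENNReal.toReal_add hAf (by finiteness), ENNReal.toReal_add (by finiteness) (by finiteness),
    hK] at this
  simp only [ENNReal.toReal_mul, ENNReal.toReal_ofReal hp, ENNReal.toReal_natCast] at this
  rw [le_div_iff₀ hpos]
  simp only [measureReal_def] at hpos ⊢
  push_cast at this ⊢
  nlinarith [mul_nonneg hp hpos.le]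

/-- For every graph `G` on `m ≥ 1` vertices, `P` of the iterated suspensions tends to `1`. -/
theorem result (m : ℕ) (hm : 1 ≤ m) (G : SimpleGraph (Fin m)) :
    Tendsto (fun k => P (iter G k)) atTop (𝓝 1) := by
  have hm0 : (1 : ℝ) ≤ m := by exact_mod_cast hm
  set ρ : ℝ := 1 - 1 / (24 * m) with hρ
  have h1 : 1 / (24 * m : ℝ) < 1 := by rw [div_lt_one (by positivity)]; linarith
  have h2 : 0 < 1 / (24 * m : ℝ) := by positivity
  have t1 : Tendsto (fun d : ℕ => 1 - ((m + 2) * ρ ^ d + d * ρ ^ d)) atTop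
      (𝓝 (1 - ((m + 2) * 0 + 0))) :=
    (((tendsto_pow_atTop_nhds_zero_of_lt_one (by linarith) (by linarith)).const_mul _).add
      (tendsto_self_mul_const_pow_of_lt_one (by linarith) (by linarith))).const_sub _
  have t2 : Tendsto (fun k : ℕ => m + k - 2) atTop atTop :=
    tendsto_atTop_atTop.2 fun b => ⟨b + 2, fun a _ => by omega⟩
  have t3 := t1.comp t2
  simp only [mul_zero, add_zero, sub_zero] at t3
  refine tendsto_of_tendsto_of_tendsto_of_le_of_le' t3 tendsto_const_nhds ?_ ?_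
  · filter_upwards [eventually_ge_atTop (m + 3)] with k hk
    have := (bound m (m + k) _ (iter_adj G k) hm (by omega)).1
    refine le_trans (le_of_eq ?_) this
    simp only [Function.comp]
    rw [Nat.cast_sub (by omega)]
    push_cast
    ring
  · filter_upwards [eventually_ge_atTop (m + 3)] with k hk
    exact (bound m (m + k) _ (iter_adj G k) hm (by omega)).2

end Pool.Agent.Results.MP_0d7d6c_co.Limit
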